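import Mathlib
import Pool.Agent.L0h7.MS.Stm

set_option autoImplicit false

/-! BAI: the space of infinite marked groups is a Baire space. -/

namespace Pool.Agent.L0h61.MS

open Pool.Agent.L0h7.MS

theorem chi_eq {r : ℕ} (N : Marked r) (w : FreeGroup (Fin r)) : chi N w = true ↔ w ∈ N.1 := by
  unfold chi
  simp

theorem chi_inj {r : ℕ} : Function.Injective (chi (r := r)) := by
  intro N M h
  apply Subtype.ext
  ext w
  rw [← chi_eq N w, ← chi_eq M w, h]

theorem clopen_ev {r : ℕ} (w : FreeGroup (Fin r)) (b : Bool) :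
    IsClopen {f : FreeGroup (Fin r) → Bool | f w = b} := by
  have h : {f : FreeGroup (Fin r) → Bool | f w = b} = (fun f => f w) ⁻¹' {b} := rfl
  rw [h]
  exact (isClopen_discrete _).preimage (continuous_apply w)

/-- the conditions for a normal subgroup -/
def Nrm (r : ℕ) : Set (FreeGroup (Fin r) → Bool) :=
  {f | f 1 = true} ∩ (⋂ a, ⋂ b, {f | f a = true → f b = true → f (a * b) = true}) ∩
    (⋂ a, {f | f a = true → f a⁻¹ = true}) ∩
    (⋂ a, ⋂ g, {f | f a = true → f (g * a * g⁻¹) = true})

theorem closed_imp {r : ℕ} {A B : Set (FreeGroup (Fin r) → Bool)} (hA : IsClopen A) (hB : IsClosed B) :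
    IsClosed {f | f ∈ A → f ∈ B} := by
  have h : {f | f ∈ A → f ∈ B} = Aᶜ ∪ B := by
    ext f
    simp only [Set.mem_setOf_eq, Set.mem_union, Set.mem_compl_iff]
    tauto
  rw [h]
  exact hA.compl.1.union hB

theorem closed_Nrm (r : ℕ) : IsClosed (Nrm r) := by
  unfold Nrm
  refine ((IsClosed.inter ?_ ?_).inter ?_).inter ?_
  · exact (clopen_ev 1 true).1
  · refine isClosed_iInter fun a => isClosed_iInter fun b => ?_
    exact closed_imp (clopen_ev a true) (closed_imp (clopen_ev b true) (clopen_ev (a * b) true).1)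
  · refine isClosed_iInter fun a => ?_
    exact closed_imp (clopen_ev a true) (clopen_ev a⁻¹ true).1
  · refine isClosed_iInter fun a => isClosed_iInter fun g => ?_
    exact closed_imp (clopen_ev a true) (clopen_ev (g * a * g⁻¹) true).1

theorem range_closed (h : S_NBH) (r : ℕ) : IsClosed (Set.range (chi (r := r))) := by
  have hS : ∀ K : {K : Subgroup (FreeGroup (Fin r)) // K.Normal ∧ Finite (FreeGroup (Fin r) ⧸ K)},
      ∃ S : Finset (FreeGroup (Fin r)), (∀ s ∈ S, s ∈ K.1) ∧
      ∀ K' : Subgroup (FreeGroup (Fin r)), K'.Normal → (∀ s ∈ S, s ∈ K') → K.1 ≤ K' := by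
    intro K
    haveI := K.2.1
    haveI := K.2.2
    exact h r K.1 inferInstance
  choose S hS1 hS2 using hS
  have e : Set.range (chi (r := r)) = Nrm r ∩ ⋂ K, {f | ∀ s ∈ S K, f s = true}ᶜ := by
    ext f
    constructor
    · rintro ⟨N, rfl⟩
      refine ⟨⟨⟨⟨?_, ?_⟩, ?_⟩, ?_⟩, ?_⟩
      · exact (chi_eq N 1).2 N.1.one_mem
      · simp only [Set.mem_iInter, Set.mem_setOf_eq, chi_eq]
        exact fun a b ha hb => N.1.mul_mem ha hb
      · simp only [Set.mem_iInter, Set.mem_setOf_eq, chi_eq]
        exact fun a ha => N.1.inv_mem ha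
      · simp only [Set.mem_iInter, Set.mem_setOf_eq, chi_eq]
        exact fun a g ha => N.2.1.conj_mem a ha g
      · simp only [Set.mem_iInter, Set.mem_compl_iff, Set.mem_setOf_eq, chi_eq]
        intro K hK
        have hle := hS2 K N.1 N.2.1 hK
        haveI := K.2.2
        haveI := N.2.2
        have hf : Finite (FreeGroup (Fin r) ⧸ N.1) := by
          have : K.1.FiniteIndex := Subgroup.finiteIndex_of_finite_quotient
          have : N.1.FiniteIndex := Subgroup.finiteIndex_of_le hle
          exact N.1.finite_quotient_of_finiteIndex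
        exact not_finite (FreeGroup (Fin r) ⧸ N.1)
    · rintro ⟨⟨⟨⟨h1, h2⟩, h3⟩, h4⟩, h5⟩
      simp only [Set.mem_iInter, Set.mem_setOf_eq] at h1 h2 h3 h4
      let N : Subgroup (FreeGroup (Fin r)) :=
        { carrier := {w | f w = true}
          mul_mem' := fun {a b} ha hb => h2 a b ha hb
          one_mem' := h1
          inv_mem' := fun {a} ha => h3 a ha }
      have hN : ∀ w, w ∈ N ↔ f w = true := fun w => Iff.rfl
      have hNn : N.Normal := ⟨fun a ha g => h4 a g ha⟩
      have hNi : Infinite (FreeGroup (Fin r) ⧸ N) := by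
        by_contra hc
        have hfin : Finite (FreeGroup (Fin r) ⧸ N) := not_infinite_iff_finite.1 hc
        have := Set.mem_iInter.1 h5 ⟨N, hNn, hfin⟩
        exact this fun s hs => (hN s).1 (hS1 ⟨N, hNn, hfin⟩ s hs)
      let M : Marked r := ⟨N, hNn, hNi⟩
      refine ⟨M, ?_⟩
      funext w
      exact Bool.eq_iff_iff.2 ((chi_eq M w).trans (hN w))
  rw [e]
  refine (closed_Nrm r).inter (isClosed_iInter fun K => ?_)
  rw [isClosed_compl_iff]
  have e2 : {f : FreeGroup (Fin r) → Bool | ∀ s ∈ S K, f s = true} =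
      ⋂ s ∈ S K, {f | f s = true} := by
    ext f
    simp
  rw [e2]
  exact isOpen_biInter_finset fun s _ => (clopen_ev s true).2

theorem t_BAI : S_NBH → S_BAI := by
  intro h r
  have hi : Topology.IsInducing (chi (r := r)) := ⟨rfl⟩
  have he : Topology.IsClosedEmbedding (chi (r := r)) := ⟨⟨hi, chi_inj⟩, range_closed h r⟩
  haveI : CompactSpace (Marked r) := he.compactSpace
  haveI : T2Space (Marked r) := he.toIsEmbedding.t2Space
  infer_instance

end Pool.Agent.L0h61.MS
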